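import Pool.Agent.Y933.KE.PowRes

/-!
# The central limit theorem for the base `q` digits of the multiples of `p ^ N`

Let `p` and `q` be coprime, for instance different primes. For a random multiplier `m ≤ M` and
`N ≤ A log M`, the sum of any function `F` of the words of `w` digits over any window of `L` places of
the base `q` expansion of `m * p ^ N + y` (below the leading digits) is asymptotically normal, with
the mean and the variance of a random integer, as soon as `L → ∞`.
-/

set_option autoImplicit false

open Filter Topology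

namespace Pool.Agent.Results.MP_b08cb4_nt.GaussianMultiples

/-- the mean of `F` over the words of `w` digits in base `q` -/
noncomputable def mean (q w : ℕ) (F : ℕ → ℝ) : ℝ :=
  (∑ c ∈ Finset.range (q ^ w), F c) / (q : ℝ) ^ w

/-- the covariance of the values of `F` at the two words of `w` digits at the beginning and at the
end of a random word `c` of `w + h` digits -/
noncomputable def covariance (q w : ℕ) (F : ℕ → ℝ) (h : ℕ) : ℝ :=
  (∑ c ∈ Finset.range (q ^ (w + h)), (F (c / q ^ h) - mean q w F) * (F (c % q ^ w) - mean q w F)) /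
    (q : ℝ) ^ (w + h)

/-- the asymptotic variance of the word sums -/
noncomputable def variance (q w : ℕ) (F : ℕ → ℝ) : ℝ :=
  covariance q w F 0 + 2 * ∑ h ∈ Finset.Ico 1 w, covariance q w F h

/-- Let `p, q ≥ 2` be coprime, and let `F` be a function of the words of `w ≥ 1` digits in base `q`
whose asymptotic variance is positive. Let `N`, `y`, `i₀`, `L` be sequences of natural numbers such
that `L M → ∞` and, for large `M`, `N M ≤ A log M` and `q ^ (i₀ M + L M + w) ≤ p ^ (N M)`. Then the
proportion of the `m` in `[1, M]` for which the sum of `F` over the `L M` words of the digits of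
`m * p ^ (N M) + y M` at the places `i₀ M + i, …, i₀ M + i + w - 1`, `i < L M` (counted from the
right), is at most `L M * mean + a * √(variance * L M)` tends, for every real `a`, to the value at `a`
of the distribution function of the standard normal distribution. -/
theorem result (p q : ℕ) (hp : 2 ≤ p) (hq : 2 ≤ q) (hpq : p.Coprime q) (w : ℕ) (hw : 1 ≤ w)
    (F : ℕ → ℝ) (hF : 0 < variance q w F) (A : ℝ) (N y i₀ L : ℕ → ℕ) (hL : Tendsto L atTop atTop)
    (hN : ∀ᶠ M : ℕ in atTop, (N M : ℝ) ≤ A * Real.log M ∧ q ^ (i₀ M + L M + w) ≤ p ^ (N M))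
    (a : ℝ) :
    Tendsto (fun M : ℕ => (((Finset.Icc 1 M).filter (fun m =>
      ∑ i ∈ Finset.range (L M), F ((m * p ^ (N M) + y M) / q ^ (i₀ M + i) % q ^ w) -
        L M * mean q w F ≤ a * √(variance q w F * L M))).card : ℝ) / M) atTop
      (𝓝 ((ProbabilityTheory.gaussianReal 0 1).real (Set.Iic a))) := by
  have hqR : (2 : ℝ) ≤ q := by exact_mod_cast hq
  have hpR : (2 : ℝ) ≤ p := by exact_mod_cast hp
  have hlq : 0 < Real.log (q : ℝ) := Real.log_pos (by linarith)
  have hlp : 0 < Real.log (p : ℝ) := Real.log_pos (by linarith)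
  have h := Pool.Agent.Y933.KE.clt_smear (ι := ℕ) (by omega : 1 ≤ q) hw F hF
    (A := A * Real.log p / Real.log q) (Pool.Agent.Y933.KE.SPw_prob p q A)
    (fun k => Pool.Agent.Y933.KE.tw_pow hp hq hpq A k _)
    (fun M => Finset.Icc 1 M) (fun M m => m * p ^ (N M) + y M) i₀ L hL (by
      filter_upwards [hN, eventually_ge_atTop 1] with M hM hM1
      have hJ : q ^ (i₀ M + L M + w - 1) ≤ p ^ (N M) :=
        (Nat.pow_le_pow_right (by omega) (by omega)).trans hM.2
      refine ⟨Finset.nonempty_Icc.2 hM1, ⟨N M, _, y M, hM.1, hJ, rfl⟩, ?_⟩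
      have h3 : (q : ℝ) ^ (i₀ M + L M + w - 1) ≤ (p : ℝ) ^ (N M) := by exact_mod_cast hJ
      have h4 := Real.log_le_log (by positivity) h3
      rw [Real.log_pow, Real.log_pow] at h4
      have h5 : (A * Real.log p / Real.log q) * Real.log M =
          (A * Real.log M) * Real.log p / Real.log q := by ring
      rw [h5, le_div_iff₀ hlq]
      exact h4.trans (by gcongr; exact hM.1)) a
  refine h.congr fun M => ?_
  rw [Nat.card_Icc, Nat.add_sub_cancel]
  congr!

end Pool.Agent.Results.MP_b08cb4_nt.GaussianMultiples
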