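import Mathlib
import Pool.Agent.Y928.PW.Windows

/-!
# The linear complexity of the windows of digits of powers

For integers composed of primes which do not divide `q` (for example the powers of a prime
`p ≠ q`) the linear complexity over `ℚ` of every long window of base-`q` digits is asymptotically
half the length of the window, as for random digits; and a window stays complex after `k` changes.
-/

set_option autoImplicit false

namespace Pool.Agent.Results.MP_b08cb4_nt.LinearComplexityOfWindows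

/-- the digit of `N` in base `q` at the place `i` (the last digit has the place `0`) -/
def digit (q N i : ℕ) : ℕ := N / q ^ i % q

/-- the word `w 0, …, w (L - 1)` satisfies a linear recurrence of order `m` over `ℚ` -/
def Recurrence (w : ℕ → ℤ) (L m : ℕ) : Prop :=
  ∃ c : ℕ → ℚ, ∀ i : ℕ, i + m < L →
    (w (i + m) : ℚ) = ∑ j ∈ Finset.range m, c j * (w (i + j) : ℚ)

/-- the linear complexity over `ℚ` of the word `w 0, …, w (L - 1)` -/
noncomputable def complexity (w : ℕ → ℤ) (L : ℕ) : ℕ := sInf {m | Recurrence w L m}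

/-- any `m + 1` consecutive terms of the word `w 0, …, w (L - 1)` satisfy the same nontrivial
linear relation with rational coefficients -/
def Related (w : ℕ → ℤ) (L m : ℕ) : Prop :=
  ∃ c : ℕ → ℚ, (∃ j ≤ m, c j ≠ 0) ∧
    ∀ i : ℕ, i + m < L → ∑ j ∈ Finset.range (m + 1), c j * (w (i + j) : ℚ) = 0

/-- Let `q ≥ 2` and let `S` be a finite set of primes which do not divide `q`; let `ε > 0`.
(1) If `A` is large and all prime factors of `A` are in `S` (for instance `A = p ^ n`), then for
every window of `L ≥ ε log_q A` consecutive base-`q` digits of `A` the linear complexity of the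
word of these digits, read from the right or from the left, lies strictly between
`(1 / 2 - ε) L` and `(1 / 2 + ε) L`.
(2) For every `k` there is `C` such that for all `A` with all prime factors in `S` and all
multiples `u A`: if a window of `L` digits of `u A` can be changed at `k` places into a word
(of integers bounded by `q`) any `m + 1` consecutive terms of which satisfy the same nontrivial
linear relation, then `L ≤ (2 ^ (k + 2) - 2) (m + 3 log_q u) + ε log_q A + C`. -/
theorem result (q : ℕ) (hq : 2 ≤ q) (S : Finset ℕ) (hS : ∀ ℓ ∈ S, ℓ.Prime ∧ ¬ ℓ ∣ q)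
    (ε : ℝ) (hε : 0 < ε) :
    (∃ N₀ : ℕ, ∀ A : ℕ, N₀ ≤ A → (∀ ℓ : ℕ, ℓ.Prime → ℓ ∣ A → ℓ ∈ S) → ∀ t L : ℕ,
      ε * (Real.log A / Real.log q) ≤ L → q ^ (t + L) ≤ q * A →
      ((1 / 2 - ε) * L < complexity (fun i => (digit q A (t + i) : ℤ)) L ∧
        (complexity (fun i => (digit q A (t + i) : ℤ)) L : ℝ) < (1 / 2 + ε) * L) ∧
      ((1 / 2 - ε) * L < complexity (fun i => (digit q A (t + (L - 1 - i)) : ℤ)) L ∧
        (complexity (fun i => (digit q A (t + (L - 1 - i)) : ℤ)) L : ℝ) < (1 / 2 + ε) * L)) ∧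
    (∀ k : ℕ, ∃ C : ℝ, ∀ u A : ℕ, 1 ≤ u → 1 ≤ A → (∀ ℓ : ℕ, ℓ.Prime → ℓ ∣ A → ℓ ∈ S) →
      ∀ t L m : ℕ, q ^ (t + L) ≤ q * (u * A) → ∀ w : ℕ → ℤ, (∀ i < L, |w i| ≤ q) →
      ((Finset.range L).filter (fun i => w i ≠ (digit q (u * A) (t + i) : ℤ))).card ≤ k →
      Related w L m →
      (L : ℝ) ≤ (2 ^ (k + 2) - 2) * (m + 3 * (Real.log u / Real.log q)) +
        ε * (Real.log A / Real.log q) + C) := by
  constructor
  · exact Pool.Agent.Y928.PW.windowsTwo q hq S (fun ℓ hℓ => (hS ℓ hℓ).1)
      (fun ℓ hℓ => (hS ℓ hℓ).2) ε hε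
  · intro k
    obtain ⟨C, -, h⟩ := Pool.Agent.Y928.PW.windowsRel q hq S (fun ℓ hℓ => (hS ℓ hℓ).1)
      (fun ℓ hℓ => (hS ℓ hℓ).2) k ε hε
    refine ⟨C, fun u A hu hA hAS t L m hwin w hw hcard hrel => ?_⟩
    obtain ⟨c, hc1, hc2⟩ := hrel
    exact h u A hu hA hAS t L m hwin w hw hcard c hc1 hc2

end Pool.Agent.Results.MP_b08cb4_nt.LinearComplexityOfWindows
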