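import Pool.Agent.Y933.KE.PowRes

/-!
# Almost all small multiples of `p ^ n` have equidistributed digits in base `q`

Let `p` and `q` be coprime, for instance different primes, and `ε > 0`. For all but a proportion
`p ^ (-c n)` of the multipliers `m ≤ p ^ (ε n)`, all digits `b` have the frequency `1 / q` in the base
`q` expansion of `m * p ^ n`, up to an error `2 ε`. More generally, all words have the right
frequencies in all windows of places, and the digits at any `k` places of a random multiple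
`m * p ^ N + y`, `m ≤ M`, are jointly distributed like those of a random integer with an error
`O (M ^ (-δ))`, as long as `N` is at most a constant times `log M`.
-/

set_option autoImplicit false

open Filter Topology

namespace Pool.Agent.Results.MP_b08cb4_nt.MultiplesOfPowers

open Classical in
/-- Let `p, q ≥ 2` be coprime.

(1) For all `k` and `A` there are `δ > 0` and `C` such that for all `M ≥ 1`, all natural numbers `N`,
`J`, `y` with `N ≤ A log M` and `q ^ J ≤ p ^ N`, all words `c r` of `w r` digits in base `q` and places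
`i r` with `i r + w r ≤ J`, `r < k`: the proportion of the `m` in `[1, M]` such that for all `r < k`
the digits of `m * p ^ N + y` in base `q` at the places `i r, …, i r + w r - 1` form the word `c r`
differs from the proportion of the `t` in `[0, q ^ J)` with the same property by at most
`C * M ^ (-δ)`. Places are counted from the right: the place `i` is that of `q ^ i`.

(2) For all `w`, `A` and `ε > 0` there are `c > 0` and `M₀` such that for all `M ≥ M₀` and all `N`, `y`
with `N ≤ A log M`, all but at most `M ^ (1 - c)` of the `m` in `[1, M]` have the following property: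
for every word `j` of `k ≤ w` digits in base `q` and all `i₀`, `L` with `q ^ (i₀ + L + k) ≤ p ^ N`, the
number of the `i < L` such that the digits of `m * p ^ N + y` at the places
`i₀ + i, …, i₀ + i + k - 1` form the word `j` differs from `L / q ^ k` by at most `ε log M`.

(3) For every `ε > 0` there are `c > 0` and `n₀` such that for all `n ≥ n₀` the number of the
`m ≤ p ^ (ε n)` such that for some digit `b < q` the number of digits `b` in the base `q` expansion of
`m * p ^ n`, divided by `n log_q p`, differs from `1 / q` by more than `2 ε`, is at most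
`p ^ ((ε - c) n)`. -/
theorem result (p q : ℕ) (hp : 2 ≤ p) (hq : 2 ≤ q) (hpq : p.Coprime q) :
    (∀ (k : ℕ) (A : ℝ), ∃ δ : ℝ, 0 < δ ∧ ∃ C : ℝ, ∀ M : ℕ, 1 ≤ M → ∀ N J y : ℕ,
      (N : ℝ) ≤ A * Real.log M → q ^ J ≤ p ^ N → ∀ i w c : Fin k → ℕ, (∀ r, i r + w r ≤ J) →
      |(((Finset.Icc 1 M).filter (fun m =>
          ∀ r, (m * p ^ N + y) / q ^ (i r) % q ^ (w r) = c r)).card : ℝ) / M -
        (((Finset.range (q ^ J)).filter (fun t =>
          ∀ r, t / q ^ (i r) % q ^ (w r) = c r)).card : ℝ) / (q : ℝ) ^ J| ≤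
        C * (M : ℝ) ^ (-δ)) ∧
    (∀ (w : ℕ) (A ε : ℝ), 0 < ε → ∃ c : ℝ, 0 < c ∧ ∃ M₀ : ℕ, ∀ M : ℕ, M₀ ≤ M → ∀ N y : ℕ,
      (N : ℝ) ≤ A * Real.log M →
      (((Finset.Icc 1 M).filter (fun m => ¬ ∀ k j i₀ L : ℕ, 1 ≤ k → k ≤ w → j < q ^ k →
        q ^ (i₀ + L + k) ≤ p ^ N →
        |(((Finset.range L).filter (fun i =>
          (m * p ^ N + y) / q ^ (i₀ + i) % q ^ k = j)).card : ℝ) - L / (q : ℝ) ^ k| ≤
          ε * Real.log M)).card : ℝ) ≤ (M : ℝ) ^ (1 - c)) ∧
    (∀ ε : ℝ, 0 < ε → ∃ c : ℝ, 0 < c ∧ ∃ n₀ : ℕ, ∀ n : ℕ, n₀ ≤ n →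
      (((Finset.Icc 1 ⌊(p : ℝ) ^ (ε * n)⌋₊).filter (fun m => ∃ b < q, 2 * ε <
        |((Nat.digits q (m * p ^ n)).count b : ℝ) / (n * Real.logb q p) - 1 / q|)).card : ℝ) ≤
        (p : ℝ) ^ ((ε - c) * n)) := by
  have hqR : (2 : ℝ) ≤ q := by exact_mod_cast hq
  have hq0 : (0 : ℝ) < q := by linarith
  have hpR : (2 : ℝ) ≤ p := by exact_mod_cast hp
  have hp0 : (0 : ℝ) < p := by linarith
  have hlq : 0 < Real.log (q : ℝ) := Real.log_pos (by linarith)
  have hlp : 0 < Real.log (p : ℝ) := Real.log_pos (by linarith)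
  -- the number of places
  have hJA : ∀ {A : ℝ} {M N J : ℕ}, (N : ℝ) ≤ A * Real.log M → q ^ J ≤ p ^ N →
      (J : ℝ) ≤ (A * Real.log p / Real.log q) * Real.log M := by
    intro A M N J hN hJ
    have h3 : (q : ℝ) ^ J ≤ (p : ℝ) ^ N := by exact_mod_cast hJ
    have h4 := Real.log_le_log (by positivity) h3
    rw [Real.log_pow, Real.log_pow] at h4
    have h5 : (A * Real.log p / Real.log q) * Real.log M =
        (A * Real.log M) * Real.log p / Real.log q := by ring
    rw [h5, le_div_iff₀ hlq]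
    exact h4.trans (by gcongr)
  refine ⟨fun k A => ?_, fun w A ε hε => ?_, fun ε hε => ?_⟩
  · obtain ⟨δ, hδ, C, h⟩ := Pool.Agent.Y933.KE.tests_smear (ι := ℕ) (by omega : 1 ≤ q)
      (Pool.Agent.Y933.KE.tw_pow hp hq hpq A k (A * Real.log p / Real.log q))
    refine ⟨δ, hδ, C, fun M hM N J y hN hJ i w c hi => ?_⟩
    have := h M hM (Finset.Icc 1 M) (fun m => m * p ^ N + y) J ⟨N, J, y, hN, hJ, rfl⟩
      (hJA hN hJ) i w c hi
    rw [Nat.card_Icc, Nat.add_sub_cancel] at this
    convert this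
  · obtain ⟨c, hc, M0, h⟩ := Pool.Agent.Y933.KE.normal_smear (ι := ℕ) (w := w) hq
      (A := A * Real.log p / Real.log q) hε
      (Pool.Agent.Y933.KE.SPw_prob p q A)
      (Pool.Agent.Y933.KE.tw_pow hp hq hpq A 1 _)
    refine ⟨c, hc, max M0 1, fun M hM N y hN => ?_⟩
    have hM1 : 1 ≤ M := le_of_max_le_right hM
    have hMp : (0 : ℝ) < M := by exact_mod_cast hM1
    have hJ1 : q ^ (Nat.log q (p ^ N)) ≤ p ^ N := Nat.pow_log_le_self q (by positivity)
    have h1 := h M (le_of_max_le_left hM) (Finset.Icc 1 M) (fun m => m * p ^ N + y)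
      (Nat.log q (p ^ N)) ⟨N, _, y, hN, hJ1, rfl⟩ (hJA hN hJ1)
    rw [Nat.card_Icc, Nat.add_sub_cancel] at h1
    have h2 : (M : ℝ) * (M : ℝ) ^ (-c) = (M : ℝ) ^ (1 - c) := by
      nth_rewrite 1 [← Real.rpow_one (M : ℝ)]
      rw [← Real.rpow_add hMp]
      congr 1
    rw [h2] at h1
    refine le_trans ?_ h1
    refine Nat.cast_le.2 (Finset.card_le_card fun m hm => ?_)
    replace hm := Finset.mem_filter.1 hm
    refine Finset.mem_filter.2 ⟨hm.1, fun hall => hm.2 fun k j i₀ L hk hkw hj hL => ?_⟩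
    refine hall k j i₀ L hk hkw hj ?_
    have : i₀ + L + k ≤ Nat.log q (p ^ N) := Nat.le_log_of_pow_le (by omega) hL
    omega
  · set A : ℝ := 2 / (ε * Real.log p) with hA
    obtain ⟨c, hc, M0, h⟩ := Pool.Agent.Y933.KE.normal_smear (ι := ℕ) (w := 1) hq
      (A := A * Real.log p / Real.log q) (ε := 1 / (4 * Real.log q)) (by positivity)
      (Pool.Agent.Y933.KE.SPw_prob p q A)
      (Pool.Agent.Y933.KE.tw_pow hp hq hpq A 1 _)
    obtain ⟨n₁, hn₁⟩ := Pool.Agent.Y933.KE.freq_of_low hp hq hε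
    -- large `n`
    have ht : Tendsto (fun n : ℕ => ((p : ℝ) ^ (ε * n) : ℝ)) atTop atTop := by
      have h1 : Tendsto (fun n : ℕ => ε * (n : ℝ)) atTop atTop :=
        tendsto_natCast_atTop_atTop.const_mul_atTop hε
      have h2 := Real.tendsto_exp_atTop.comp (h1.const_mul_atTop hlp)
      refine h2.congr fun n => ?_
      simp only [Function.comp_apply]
      rw [Real.rpow_def_of_pos hp0]
    obtain ⟨n₂, hn₂⟩ := eventually_atTop.1 ((ht.eventually_ge_atTop ((M0 : ℝ) + 4)))
    set c1 : ℝ := min c 1 with hc1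
    have hc10 : 0 < c1 := lt_min hc one_pos
    have hc11 : c1 ≤ 1 := min_le_right _ _
    have hc12 : c1 ≤ c := min_le_left _ _
    refine ⟨ε * c1, by positivity, max n₁ (max n₂ 1), fun n hn => ?_⟩
    have h1 := hn₁ n (le_of_max_le_left hn)
    have h2 := hn₂ n (le_of_max_le_left (le_of_max_le_right hn))
    have hn1 : 1 ≤ n := le_of_max_le_right (le_of_max_le_right hn)
    have hnR : (1 : ℝ) ≤ n := by exact_mod_cast hn1
    set z : ℝ := (p : ℝ) ^ (ε * n) with hz
    have hz0 : 0 < z := by positivity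
    set M : ℕ := ⌊z⌋₊ with hM
    have hM1 : (M : ℝ) ≤ z := Nat.floor_le hz0.le
    have hM2 : z < M + 1 := Nat.lt_floor_add_one _
    have hM0R : (M0 : ℝ) + 3 ≤ M := by linarith
    have hMM0 : M0 ≤ M := by
      have : (M0 : ℝ) ≤ M := by linarith
      exact_mod_cast this
    have hMp : (3 : ℝ) ≤ M := by
      have : (0 : ℝ) ≤ M0 := Nat.cast_nonneg _
      linarith
    have hMp0 : (0 : ℝ) < M := by linarith
    have hlogz : Real.log z = ε * n * Real.log p := by rw [hz, Real.log_rpow hp0]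
    have hlogM1 : Real.log M ≤ ε * n * Real.log p := by
      rw [← hlogz]
      exact Real.log_le_log hMp0 hM1
    have hlogM2 : ε * n * Real.log p ≤ 2 * Real.log M := by
      rw [← hlogz]
      have h3 : z ≤ (M : ℝ) ^ 2 := by nlinarith
      have h4 := Real.log_le_log hz0 h3
      rwa [Real.log_pow, Nat.cast_ofNat] at h4
    have hN : (n : ℝ) ≤ A * Real.log M := by
      rw [hA, div_mul_eq_mul_div, le_div_iff₀ (by positivity)]
      calc (n : ℝ) * (ε * Real.log p) = ε * n * Real.log p := by ring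
        _ ≤ 2 * Real.log M := hlogM2
    have hJ1 : q ^ (Nat.log q (p ^ n)) ≤ p ^ n := Nat.pow_log_le_self q (by positivity)
    have h3 := h M hMM0 (Finset.Icc 1 M) (fun m => m * p ^ n + 0)
      (Nat.log q (p ^ n)) ⟨n, _, 0, hN, hJ1, rfl⟩ (hJA hN hJ1)
    rw [Nat.card_Icc, Nat.add_sub_cancel] at h3
    have h4 : (M : ℝ) * (M : ℝ) ^ (-c) ≤ (p : ℝ) ^ ((ε - ε * c1) * n) := by
      calc (M : ℝ) * (M : ℝ) ^ (-c) ≤ (M : ℝ) * (M : ℝ) ^ (-c1) := by
            gcongr
            linarith
        _ = (M : ℝ) ^ (1 - c1) := by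
            nth_rewrite 1 [← Real.rpow_one (M : ℝ)]
            rw [← Real.rpow_add hMp0]
            congr 1
        _ ≤ z ^ (1 - c1) := Real.rpow_le_rpow hMp0.le hM1 (by linarith)
        _ = (p : ℝ) ^ ((ε - ε * c1) * n) := by
            rw [hz, ← Real.rpow_mul hp0.le]
            congr 1
            ring
    refine le_trans ?_ (h3.trans h4)
    refine Nat.cast_le.2 (Finset.card_le_card fun m hm => ?_)
    replace hm := Finset.mem_filter.1 hm
    refine Finset.mem_filter.2 ⟨hm.1, fun hall => ?_⟩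
    obtain ⟨b, hb, hbad⟩ := hm.2
    have hm' := Finset.mem_Icc.1 hm.1
    refine absurd (h1 m b hm'.1 ?_ ?_) (not_le.2 hbad)
    · exact (by exact_mod_cast hm'.2 : (m : ℝ) ≤ M).trans hM1
    · have h5 := hall 1 b 0 (Nat.log q (p ^ n)) le_rfl le_rfl (by simpa using hb) (by omega)
      simp only [zero_add, add_zero, pow_one] at h5
      refine h5.trans ?_
      gcongr

end Pool.Agent.Results.MP_b08cb4_nt.MultiplesOfPowers
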