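import Mathlib
import Pool.Agent.Y950.NK.Main3

/-!
# Powers whose ternary expansion misses a digit

For every `p ≥ 2` prime to `3` and every set `D` of two ternary digits, at most
`C N ^ (log 3 / log (27 / 4))` of the `n < N` have the property that the
`2 ⌈log N / log (27 / 4)⌉` lowest ternary digits of `u p ^ n` are all in `D`, uniformly for all `u`
prime to `3`.  Here `log 3 / log (27 / 4) = 0.57532…`; the bound of Narkiewicz for `2 ^ n` has the
exponent `log 2 / log 3 = 0.63092…`, and the bound in the file `MissingDigits` has `0.5988`.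

With `n = s + T m` and `T` the period of `p ^ n` modulo `3 ^ k`, the `k` lowest digits of `u p ^ n`
depend on `s` only and the next `k` digits are those of `c_s + λ_s m` modulo `3 ^ k`.  The error term
for the equidistribution of these is bounded by means of the number of the quadruples `n, x, n', x'`
with `1 ≤ n, n' < 3 ^ h`, with units `x, x'` modulo `3 ^ k` whose digits are in `D`, and with
`n x' ≡ n' x` modulo `3 ^ k`.  The new point is that this energy is, up to a constant factor, equal to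
the number `3 ^ h * 2 ^ k` of its diagonal solutions when `3 ^ h` is close to `(4 / 3) ^ k`.  This
rests on the fact that for `ρ = ± 1 + 3 ^ v κ`, with `κ` a unit, there are at most `1.62 ^ (m + v)`
pairs `x, x'` of numbers below `3 ^ m` with digits in `D` and `x' ≡ ρ x + τ` modulo `3 ^ m`: the tree
of the expansions has the growth rate of the golden ratio.
-/

set_option autoImplicit false

namespace Pool.Agent.Results.MP_b08cb4_nt.TernaryExponent

open Pool.Agent.W288.NK Pool.Agent.Y950.NK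

theorem mem_digits (m i : ℕ) (h : 3 ^ i ≤ m) : m / 3 ^ i % 3 ∈ Nat.digits 3 m := by
  have h1 : m < 3 ^ (Nat.digits 3 m).length := Nat.lt_base_pow_length_digits (by norm_num)
  have h2 : i < (Nat.digits 3 m).length := by
    by_contra hc
    push Not at hc
    have := Nat.pow_le_pow_right (n := 3) (by norm_num) hc
    omega
  rw [← Nat.getD_digits m i (by norm_num), List.getD_eq_getElem _ _ h2]
  exact List.getElem_mem h2

theorem general (D : Finset ℕ) (hD : D ⊆ Finset.range 3) (hD2 : D.card = 2) (p : ℕ) (hp : 2 ≤ p)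
    (hpq : ¬ 3 ∣ p) :
    ∃ C : ℝ, ∀ u : ℕ, 0 < u → Nat.Coprime u 3 → ∀ N : ℕ, 1 ≤ N →
      (((Finset.range N).filter (fun n =>
          ∀ i < 2 * ⌈Real.log N / Real.log (27 / 4)⌉₊,
            (u * p ^ n) / 3 ^ i % 3 ∈ D)).card : ℝ) ≤
        C * (N : ℝ) ^ (Real.log 3 / Real.log (27 / 4)) ∧
      (((Finset.range N).filter (fun n =>
          (Nat.digits 3 (u * p ^ n)).toFinset ⊆ D)).card : ℝ)
        ≤ C * (N : ℝ) ^ (Real.log 3 / Real.log (27 / 4)) := by
  obtain ⟨C, hC0, hC⟩ := main3 p hp hpq hD hD2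
  have hl0 : 0 < Real.log (27 / 4) := Real.log_pos (by norm_num)
  have hl1 : 1 ≤ Real.log (27 / 4) := by
    have h1 : Real.exp 1 < 2.7182818286 := Real.exp_one_lt_d9
    rw [Real.le_log_iff_exp_le (by norm_num)]
    linarith
  have h30 : 0 < Real.log 3 := Real.log_pos (by norm_num)
  have hlog2 : 0 < Real.log 2 := Real.log_pos (by norm_num)
  obtain ⟨E, hE⟩ : ∃ E : ℝ, E = Real.log 3 / Real.log (27 / 4) := ⟨_, rfl⟩
  rw [← hE] at hC ⊢
  have hE0 : 0 < E := by rw [hE]; positivity
  obtain ⟨C', hC'⟩ : ∃ C' : ℝ, C' = 2 * Real.log 3 / Real.log 2 * (1 / E + 1) + 1 := ⟨_, rfl⟩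
  have hC'0 : 0 < C' := by rw [hC']; positivity
  refine ⟨C + C', ?_⟩
  intro u hu0 hu N hN
  have hNr : (1 : ℝ) ≤ N := by exact_mod_cast hN
  have hNE : 1 ≤ (N : ℝ) ^ E := Real.one_le_rpow hNr hE0.le
  have h1 := hC u hu N hN
  have hC'NE : 0 ≤ C' * (N : ℝ) ^ E := by positivity
  obtain ⟨k, hk⟩ : ∃ k, k = ⌈Real.log N / Real.log (27 / 4)⌉₊ := ⟨_, rfl⟩
  rw [← hk] at h1 ⊢
  have h1' : (((Finset.range N).filter (fun n =>
          ∀ i < 2 * k, (u * p ^ n) / 3 ^ i % 3 ∈ D)).card : ℝ) ≤ C * (N : ℝ) ^ E := by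
    have hset : (Finset.range N).filter (fun n => ∀ i < 2 * k, (u * p ^ n) / 3 ^ i % 3 ∈ D)
        = (Finset.range N).filter (fun n => good 3 D (2 * k) (u * p ^ n)) := by
      apply Finset.filter_congr
      intro n _
      exact Iff.rfl
    rw [hset]
    exact h1
  refine ⟨by rw [add_mul]; linarith, ?_⟩
  -- the exceptional n
  have hsub : (Finset.range N).filter (fun n => (Nat.digits 3 (u * p ^ n)).toFinset ⊆ D)
      ⊆ ((Finset.range N).filter (fun n => ∀ i < 2 * k, (u * p ^ n) / 3 ^ i % 3 ∈ D)) ∪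
        Finset.range (⌊2 * k * Real.log 3 / Real.log 2⌋₊ + 1) := by
    intro n hn
    obtain ⟨h2, h3⟩ := Finset.mem_filter.mp hn
    rw [Finset.mem_union]
    by_cases h4 : 3 ^ (2 * k) ≤ u * p ^ n
    · left
      rw [Finset.mem_filter]
      refine ⟨h2, fun i hi => ?_⟩
      apply h3
      rw [List.mem_toFinset]
      apply mem_digits _ i
      exact le_trans (Nat.pow_le_pow_right (by norm_num) (by omega)) h4
    · right
      push Not at h4
      rw [Finset.mem_range]
      have h5 : 2 ^ n < 3 ^ (2 * k) := by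
        calc 2 ^ n ≤ p ^ n := Nat.pow_le_pow_left hp n
          _ ≤ u * p ^ n := Nat.le_mul_of_pos_left _ hu0
          _ < _ := h4
      have h6 : (n : ℝ) * Real.log 2 < 2 * k * Real.log 3 := by
        have h7 : ((2 : ℝ)) ^ n < (3 : ℝ) ^ (2 * k) := by exact_mod_cast h5
        have h8 := Real.log_lt_log (by positivity) h7
        rw [Real.log_pow, Real.log_pow] at h8
        push_cast at h8
        exact h8
      have h7 : (n : ℝ) ≤ 2 * k * Real.log 3 / Real.log 2 := by
        rw [le_div_iff₀ hlog2]; exact h6.le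
      have := Nat.le_floor h7
      omega
  have hcard := le_trans (Finset.card_le_card hsub) (Finset.card_union_le _ _)
  rw [Finset.card_range] at hcard
  have hcard' : (((Finset.range N).filter (fun n =>
          (Nat.digits 3 (u * p ^ n)).toFinset ⊆ D)).card : ℝ)
      ≤ (((Finset.range N).filter (fun n => ∀ i < 2 * k,
            (u * p ^ n) / 3 ^ i % 3 ∈ D)).card : ℝ)
        + ((⌊2 * k * Real.log 3 / Real.log 2⌋₊ : ℝ) + 1) := by
    exact_mod_cast hcard
  have hlogN : 0 ≤ Real.log N := Real.log_nonneg hNr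
  have hfl : (⌊2 * k * Real.log 3 / Real.log 2⌋₊ : ℝ) ≤ 2 * k * Real.log 3 / Real.log 2 :=
    Nat.floor_le (by positivity)
  have hkl : (k : ℝ) ≤ Real.log N + 1 := by
    have h2 : (k : ℝ) < Real.log N / Real.log (27 / 4) + 1 := by
      rw [hk]; exact Nat.ceil_lt_add_one (by positivity)
    have h3 : Real.log N / Real.log (27 / 4) ≤ Real.log N := div_le_self hlogN hl1
    linarith
  have hlN : Real.log N ≤ (1 / E) * (N : ℝ) ^ E := by
    have := Real.log_le_rpow_div (x := (N : ℝ)) (by linarith) hE0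
    rw [one_div, mul_comm, ← div_eq_mul_inv]; exact this
  have hexc : (⌊2 * k * Real.log 3 / Real.log 2⌋₊ : ℝ) + 1 ≤ C' * (N : ℝ) ^ E := by
    calc (⌊2 * k * Real.log 3 / Real.log 2⌋₊ : ℝ) + 1
        ≤ 2 * Real.log 3 / Real.log 2 * k + 1 := by
          have e : 2 * k * Real.log 3 / Real.log 2 = 2 * Real.log 3 / Real.log 2 * k := by ring
          linarith
      _ ≤ 2 * Real.log 3 / Real.log 2 * ((1 / E) * (N : ℝ) ^ E + (N : ℝ) ^ E)
            + (N : ℝ) ^ E := by
          have h12 : 0 ≤ 2 * Real.log 3 / Real.log 2 := by positivity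
          have := mul_le_mul_of_nonneg_left (hkl.trans (add_le_add hlN hNE)) h12
          linarith
      _ = C' * (N : ℝ) ^ E := by rw [hC']; ring
  rw [add_mul]
  linarith

theorem exponent_le : Real.log 3 / Real.log (27 / 4) ≤ 0.5754 := by
  have hl0 : 0 < Real.log (27 / 4) := Real.log_pos (by norm_num)
  rw [div_le_iff₀ hl0]
  have e1 : Real.log (27 / 4) = 3 * Real.log 3 - 2 * Real.log 2 := by
    rw [Real.log_div (by norm_num) (by norm_num)]
    have e2 : (27 : ℝ) = 3 ^ 3 := by norm_num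
    have e3 : (4 : ℝ) = 2 ^ 2 := by norm_num
    rw [e2, e3, Real.log_pow, Real.log_pow]
    push_cast
    ring
  rw [e1]
  have h1 : Real.log ((2 : ℝ) ^ 84) ≤ Real.log ((3 : ℝ) ^ 53) := by
    apply Real.log_le_log (by positivity)
    norm_num
  rw [Real.log_pow, Real.log_pow] at h1
  push_cast at h1
  have h30 : 0 < Real.log 3 := Real.log_pos (by norm_num)
  nlinarith

/-- Ternary expansions of `p ^ n` that miss a given digit. -/
theorem one_digit (p b : ℕ) (hp : p.Prime) (hp3 : p ≠ 3) (hb : b < 3) :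
    ∃ C : ℝ, ∀ N : ℕ, 1 ≤ N →
      (((Finset.Icc 1 N).filter (fun n => b ∉ Nat.digits 3 (p ^ n))).card : ℝ)
        ≤ C * (N : ℝ) ^ (0.5754 : ℝ) := by
  have hcard : ((Finset.range 3).erase b).card = 2 := by
    rw [Finset.card_erase_of_mem (Finset.mem_range.mpr hb), Finset.card_range]
  have hndvd : ¬ 3 ∣ p := by
    intro h
    exact hp3 ((Nat.prime_dvd_prime_iff_eq Nat.prime_three hp).mp h).symm
  obtain ⟨C, hC⟩ := general ((Finset.range 3).erase b) (Finset.erase_subset _ _) hcard p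
    hp.two_le hndvd
  obtain ⟨E, hE⟩ : ∃ E : ℝ, E = Real.log 3 / Real.log (27 / 4) := ⟨_, rfl⟩
  have hE1 : E ≤ 0.5754 := by rw [hE]; exact exponent_le
  have hE0 : 0 ≤ E := by
    rw [hE]
    exact div_nonneg (Real.log_nonneg (by norm_num)) (Real.log_nonneg (by norm_num))
  rw [← hE] at hC
  refine ⟨|C| * 2 ^ E, ?_⟩
  intro N hN
  have h1 := (hC 1 one_pos (Nat.coprime_one_left 3) (N + 1) (by omega)).2
  have hsub : (Finset.Icc 1 N).filter (fun n => b ∉ Nat.digits 3 (p ^ n))
      ⊆ (Finset.range (N + 1)).filter (fun n =>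
        (Nat.digits 3 (1 * p ^ n)).toFinset ⊆ (Finset.range 3).erase b) := by
    intro n hn
    obtain ⟨h2, h3⟩ := Finset.mem_filter.mp hn
    rw [Finset.mem_Icc] at h2
    rw [Finset.mem_filter]
    refine ⟨Finset.mem_range.mpr (by omega), fun c hc => ?_⟩
    rw [List.mem_toFinset, one_mul] at hc
    rw [Finset.mem_erase, Finset.mem_range]
    refine ⟨?_, Nat.digits_lt_base (by norm_num) hc⟩
    rintro rfl; exact h3 hc
  have h2 : (((Finset.Icc 1 N).filter (fun n => b ∉ Nat.digits 3 (p ^ n))).card : ℝ)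
      ≤ (((Finset.range (N + 1)).filter (fun n =>
        (Nat.digits 3 (1 * p ^ n)).toFinset ⊆ (Finset.range 3).erase b)).card : ℝ) := by
    exact_mod_cast Finset.card_le_card hsub
  have hNr : (1 : ℝ) ≤ N := by exact_mod_cast hN
  calc _ ≤ _ := h2
    _ ≤ C * ((N + 1 : ℕ) : ℝ) ^ E := h1
    _ ≤ |C| * ((N + 1 : ℕ) : ℝ) ^ E := mul_le_mul_of_nonneg_right (le_abs_self C) (by positivity)
    _ ≤ |C| * (2 * (N : ℝ)) ^ E := by
        apply mul_le_mul_of_nonneg_left _ (abs_nonneg C)
        apply Real.rpow_le_rpow (by positivity) _ hE0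
        push_cast; linarith
    _ = |C| * 2 ^ E * (N : ℝ) ^ E := by
        rw [Real.mul_rpow (by norm_num) (by linarith)]; ring
    _ ≤ |C| * 2 ^ E * (N : ℝ) ^ (0.5754 : ℝ) := by
        apply mul_le_mul_of_nonneg_left _ (by positivity)
        exact Real.rpow_le_rpow_of_exponent_le hNr hE1

/-- The result. -/
theorem result :
    (∀ D : Finset ℕ, D ⊆ Finset.range 3 → D.card = 2 → ∀ p : ℕ, 2 ≤ p → ¬ 3 ∣ p →
      ∃ C : ℝ, ∀ u : ℕ, 0 < u → Nat.Coprime u 3 → ∀ N : ℕ, 1 ≤ N →
        (((Finset.range N).filter (fun n =>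
            ∀ i < 2 * ⌈Real.log N / Real.log (27 / 4)⌉₊,
              (u * p ^ n) / 3 ^ i % 3 ∈ D)).card : ℝ) ≤
          C * (N : ℝ) ^ (Real.log 3 / Real.log (27 / 4)) ∧
        (((Finset.range N).filter (fun n =>
            (Nat.digits 3 (u * p ^ n)).toFinset ⊆ D)).card : ℝ)
          ≤ C * (N : ℝ) ^ (Real.log 3 / Real.log (27 / 4))) ∧
    Real.log 3 / Real.log (27 / 4) ≤ 0.5754 ∧
    (∀ p b : ℕ, p.Prime → p ≠ 3 → b < 3 →
      ∃ C : ℝ, ∀ N : ℕ, 1 ≤ N →
        (((Finset.Icc 1 N).filter (fun n => b ∉ Nat.digits 3 (p ^ n))).card : ℝ)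
          ≤ C * (N : ℝ) ^ (0.5754 : ℝ)) :=
  ⟨general, exponent_le, one_digit⟩

end Pool.Agent.Results.MP_b08cb4_nt.TernaryExponent
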